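import Mathlib

set_option autoImplicit false

/-! # Classes of primes by their index -/

namespace Pool.Agent.R526.UT

open Finset

theorem card_primes (X Y : ℕ) : ((Ioc X (X + Y)).filter Nat.Prime).card =
    Nat.count Nat.Prime (X + Y + 1) - Nat.count Nat.Prime (X + 1) := by
  have e1 : Nat.count Nat.Prime (X + 1) = ((range (X + 1)).filter Nat.Prime).card :=
    Nat.count_eq_card_filter_range _ _
  have e2 : Nat.count Nat.Prime (X + Y + 1) = ((range (X + Y + 1)).filter Nat.Prime).card :=
    Nat.count_eq_card_filter_range _ _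
  rw [e1, e2]
  have h1 : (range (X + Y + 1)).filter Nat.Prime = (range (X + 1)).filter Nat.Prime ∪ (Ioc X (X + Y)).filter Nat.Prime := by
    ext p
    rw [mem_union, mem_filter, mem_filter, mem_filter, mem_range, mem_range, mem_Ioc]
    constructor
    · rintro ⟨h1, h2⟩
      by_cases h : p < X + 1
      · exact Or.inl ⟨h, h2⟩
      · exact Or.inr ⟨by omega, h2⟩
    · rintro (⟨h1, h2⟩ | ⟨h1, h2⟩)
      · exact ⟨by omega, h2⟩
      · exact ⟨by omega, h2⟩
  rw [h1, card_union_of_disjoint]
  · omega
  · rw [disjoint_left]
    intro p h2 h3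
    rw [mem_filter, mem_range] at h2
    rw [mem_filter, mem_Ioc] at h3
    omega

/-- the primes of `(X, X + Y]` with index in a class -/
theorem cls (X Y k j : ℕ) (hj : j < k) :
    ((Ioc X (X + Y)).filter Nat.Prime).card / k ≤
      ((Ioc X (X + Y)).filter (fun p => p.Prime ∧ Nat.count Nat.Prime p % k = j)).card := by
  have hinf : (Set.ofPred Nat.Prime).Infinite := Nat.infinite_setOfPred_prime
  rw [card_primes]
  set a := Nat.count Nat.Prime (X + 1) with ha
  set b := Nat.count Nat.Prime (X + Y + 1) with hb
  -- the first index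
  obtain ⟨r, hr, hrj⟩ : ∃ r < k, (a + r) % k = j := by
    refine ⟨(j + (k - a % k)) % k, Nat.mod_lt _ (by omega), ?_⟩
    have h1 : a % k < k := Nat.mod_lt _ (by omega)
    rw [Nat.add_mod, Nat.mod_mod, ← Nat.add_mod]
    have h2 : a + (j + (k - a % k)) = j + k * (a / k + 1) := by
      have h3 := Nat.div_add_mod a k
      have h4 : k * (a / k + 1) = k * (a / k) + k := by ring
      rw [h4]
      omega
    rw [h2, Nat.add_mul_mod_self_left]
    exact Nat.mod_eq_of_lt hj
  have h1 : (range ((b - a) / k)).card ≤
      ((Ioc X (X + Y)).filter (fun p => p.Prime ∧ Nat.count Nat.Prime p % k = j)).card := by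
    apply card_le_card_of_injOn (fun s => Nat.nth Nat.Prime (a + r + s * k))
    · intro s hs
      rw [mem_coe, mem_range] at hs
      rw [mem_coe, mem_filter, mem_Ioc]
      have h2 : (s + 1) * k ≤ b - a :=
        le_trans (Nat.mul_le_mul_right k hs) (Nat.div_mul_le_self _ _)
      have h3 : (s + 1) * k = s * k + k := by ring
      have h4 : a + r + s * k < b := by omega
      refine ⟨⟨?_, ?_⟩, Nat.prime_nth_prime _, ?_⟩
      · change X < Nat.nth Nat.Prime (a + r + s * k)
        have : X + 1 ≤ Nat.nth Nat.Prime (a + r + s * k) := by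
          rw [← Nat.count_le_iff_le_nth hinf, ← ha]
          omega
        omega
      · change Nat.nth Nat.Prime (a + r + s * k) ≤ X + Y
        have : Nat.nth Nat.Prime (a + r + s * k) < X + Y + 1 := Nat.nth_lt_of_lt_count h4
        omega
      · change Nat.count Nat.Prime (Nat.nth Nat.Prime (a + r + s * k)) % k = j
        rw [Nat.count_nth_of_infinite hinf, Nat.add_mul_mod_self_right]
        exact hrj
    · intro s hs s' hs' hss
      have h2 := Nat.nth_injective hinf hss
      have h3 : s * k = s' * k := by omega
      exact Nat.eq_of_mul_eq_mul_right (by omega) h3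
  rwa [card_range] at h1

end Pool.Agent.R526.UT
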