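import Pool.Agent.R526.UT.Cls
import Pool.Agent.H295R3.Hoheisel

set_option autoImplicit false

/-! # The density of the moved primes -/

namespace Pool.Agent.R526.UT

open MeasureTheory ProbabilityTheory Filter Finset Topology

open scoped Classical

/-- the primes in `[p₀, N]` with index `j` modulo `k` -/
noncomputable def PC (N p₀ k j : ℕ) : Finset ℕ :=
  (Icc 1 N).filter (fun p => p.Prime ∧ p₀ ≤ p ∧ Nat.count Nat.Prime p % k = j)

theorem PC_disj (N p₀ k j j' : ℕ) (h : j ≠ j') : Disjoint (PC N p₀ k j) (PC N p₀ k j') := by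
  rw [disjoint_left]
  intro p hp hp'
  unfold PC at hp hp'
  rw [mem_filter] at hp hp'
  exact h (hp.2.2.2.symm.trans hp'.2.2.2)

/-- growth of `W` -/
structure Grow (κ D : ℝ) (W : ℕ → ℕ) : Prop where
  mono : Monotone W
  low : ∀ᶠ n : ℕ in atTop, (n : ℝ) ^ (1 - κ) ≤ W n
  up : ∀ᶠ n : ℕ in atTop, 2 * W n ≤ n
  dbl : ∀ᶠ n : ℕ in atTop, (W (2 * n) : ℝ) ≤ D * W n

theorem dens : ∃ κ η : ℝ, 0 < κ ∧ κ < 1 ∧ 0 < η ∧ ∀ (D δ : ℝ), 1 ≤ D → 0 < δ → δ ≤ 1 → ∀ W : ℕ → ℕ,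
    Grow κ D W → ∀ k : ℕ, 1 ≤ k → ∀ p₀ : ℕ, ∃ m₀ : ℕ, 3 ≤ m₀ ∧ ∀ m : ℕ, m₀ ≤ m → Odd m → ∀ N : ℕ, m ≤ N → ∀ j < k,
      ∀ (Ω : Type) [MeasurableSpace Ω] (μ : Measure Ω) [IsProbabilityMeasure μ] (X : ℕ → Ω → ℕ),
        (∀ p : ℕ, p.Prime → p₀ ≤ p → ∀ i : ℕ, 1 ≤ i → i ≤ W p → μ.real {ω | X p ω = i} = δ / W p) →
        η * δ / (k * D ^ 2) / Real.log m ≤ ∑ p ∈ PC N p₀ k j, μ.real {ω | p + 2 * X p ω = m} := by
  obtain ⟨κ₀, η, hκ0, hκ1, hη, X₀, hX₀, hH⟩ := Pool.Agent.H295R3.D.hoheisel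
  refine ⟨κ₀ / 2, η / 2, by positivity, by linarith, by positivity, ?_⟩
  intro D δ hD hδ0 hδ1 W hW k hk p₀
  obtain ⟨hmono, hlow, hup, hdbl⟩ := hW
  have hk0 : (0 : ℝ) < k := by exact_mod_cast hk
  -- the conditions on `n`
  have e1 : ∀ᶠ n : ℕ in atTop, (3 * (n : ℝ)) ^ (1 - κ₀) ≤ (n : ℝ) ^ (1 - κ₀ / 2) := by
    have h1 := (tendsto_rpow_atTop (show 0 < κ₀ / 2 by positivity)).comp (tendsto_natCast_atTop_atTop (R := ℝ))
    filter_upwards [h1.eventually_ge_atTop 3, eventually_ge_atTop 1] with n h2 h3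
    have h4 : (0 : ℝ) < n := by exact_mod_cast h3
    simp only [Function.comp] at h2
    calc (3 * (n : ℝ)) ^ (1 - κ₀) = 3 ^ (1 - κ₀) * (n : ℝ) ^ (1 - κ₀) := Real.mul_rpow (by norm_num) h4.le
      _ ≤ 3 ^ (1 : ℝ) * (n : ℝ) ^ (1 - κ₀) := by
          apply mul_le_mul_of_nonneg_right _ (by positivity)
          exact Real.rpow_le_rpow_of_exponent_le (by norm_num) (by linarith)
      _ = 3 * (n : ℝ) ^ (1 - κ₀) := by rw [Real.rpow_one]
      _ ≤ (n : ℝ) ^ (κ₀ / 2) * (n : ℝ) ^ (1 - κ₀) := mul_le_mul_of_nonneg_right h2 (by positivity)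
      _ = (n : ℝ) ^ (1 - κ₀ / 2) := by
          rw [← Real.rpow_add h4]
          congr 1
          ring
  have e2 : ∀ᶠ n : ℕ in atTop, 2 * k * Real.log (3 * n) ≤ η * (n : ℝ) ^ (1 - κ₀ / 2) := by
    have h1 := (isLittleO_log_rpow_atTop (show 0 < 1 - κ₀ / 2 by linarith)).def
      (show (0 : ℝ) < η / (4 * k) by positivity)
    have h2 : Tendsto (fun n : ℕ => (n : ℝ)) atTop atTop := tendsto_natCast_atTop_atTop
    filter_upwards [h2.eventually h1, h2.eventually_ge_atTop 3] with n h3 h4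
    have h5 : 0 ≤ Real.log n := Real.log_nonneg (by linarith)
    rw [Real.norm_of_nonneg h5, Real.norm_of_nonneg (by positivity)] at h3
    have h6 : Real.log (3 * n) ≤ 2 * Real.log n := by
      rw [Real.log_mul (by norm_num) (by linarith)]
      have := Real.log_le_log (by norm_num) h4
      linarith
    calc 2 * k * Real.log (3 * n) ≤ 2 * k * (2 * Real.log n) := mul_le_mul_of_nonneg_left h6 (by positivity)
      _ ≤ 2 * k * (2 * (η / (4 * k) * (n : ℝ) ^ (1 - κ₀ / 2))) := by gcongr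
      _ = _ := by field_simp; ring
  obtain ⟨n₀, hn₀⟩ := eventually_atTop.1 ((hlow.and (hup.and hdbl)).and (e1.and e2))
  refine ⟨2 * (n₀ + p₀ + X₀ + 10), by omega, ?_⟩
  intro m hm hodd N hN j hj Ω _ μ _ X hlaw
  obtain ⟨n, hn⟩ := hodd
  have hnn : n₀ + p₀ + X₀ + 9 ≤ n := by omega
  obtain ⟨⟨a1, a2, a3⟩, a4, a5⟩ := hn₀ n (by omega)
  obtain ⟨-, -, b3⟩ := (hn₀ (n + 1) (by omega)).1
  set Y := W n with hY
  have hmr : (0 : ℝ) < m := by exact_mod_cast (by omega : 0 < m)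
  have hlm : 0 < Real.log m := Real.log_pos (by exact_mod_cast (by omega : 1 < m))
  have hm3 : (m : ℝ) ≤ 3 * n := by exact_mod_cast (by omega : m ≤ 3 * n)
  have hn0 : (0 : ℝ) < n := by exact_mod_cast (by omega : 0 < n)
  -- Hoheisel's theorem
  have hXr : ((m - 1 - Y : ℕ) : ℝ) ≤ m := by exact_mod_cast (by omega : m - 1 - Y ≤ m)
  have hX1 : ((m - 1 - Y : ℕ) : ℝ) ^ (1 - κ₀) ≤ Y := by
    calc ((m - 1 - Y : ℕ) : ℝ) ^ (1 - κ₀) ≤ (3 * (n : ℝ)) ^ (1 - κ₀) :=
          Real.rpow_le_rpow (Nat.cast_nonneg _) (by linarith) (by linarith)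
      _ ≤ (n : ℝ) ^ (1 - κ₀ / 2) := a4
      _ ≤ Y := a1
  have h1 := hH (m - 1 - Y) Y (by omega) hX1 (by omega)
  have hY0 : (0 : ℝ) < Y := lt_of_lt_of_le (by positivity) a1
  have hXpos : 1 < m - 1 - Y := by omega
  have hlX : 0 < Real.log ((m - 1 - Y : ℕ) : ℝ) := Real.log_pos (by exact_mod_cast hXpos)
  have h2 : η * Y / Real.log m ≤ (((Ioc (m - 1 - Y) (m - 1 - Y + Y)).filter Nat.Prime).card : ℝ) := by
    refine le_trans ?_ h1
    apply div_le_div_of_nonneg_left (by positivity) hlX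
    exact Real.log_le_log (by exact_mod_cast (by omega : 0 < m - 1 - Y)) hXr
  have h3 := cls (m - 1 - Y) Y k j hj
  set K := ((Ioc (m - 1 - Y) (m - 1 - Y + Y)).filter Nat.Prime).card with hK
  set A := (Ioc (m - 1 - Y) (m - 1 - Y + Y)).filter (fun p => p.Prime ∧ Nat.count Nat.Prime p % k = j) with hA
  have h4 : (K : ℝ) / k - 1 ≤ A.card := by
    have h5 : (K : ℝ) < k * ((K / k : ℕ) : ℝ) + k := by
      have h6 := Nat.div_add_mod K k
      have h7 := Nat.mod_lt K (by omega : 0 < k)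
      exact_mod_cast (by omega : K < k * (K / k) + k)
    have h6 : ((K / k : ℕ) : ℝ) ≤ A.card := by exact_mod_cast h3
    rw [sub_le_iff_le_add, div_le_iff₀ hk0]
    nlinarith
  have h5 : η * Y / (2 * k * Real.log m) ≤ A.card := by
    refine le_trans ?_ h4
    have h6 : 2 * k * Real.log m ≤ η * Y := by
      calc 2 * k * Real.log m ≤ 2 * k * Real.log (3 * n) := by
            apply mul_le_mul_of_nonneg_left _ (by positivity)
            exact Real.log_le_log hmr hm3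
        _ ≤ η * (n : ℝ) ^ (1 - κ₀ / 2) := a5
        _ ≤ η * Y := mul_le_mul_of_nonneg_left a1 hη.le
    have h7 : η * Y / Real.log m / k ≤ K / k := div_le_div_of_nonneg_right h2 hk0.le
    have h8 : 1 ≤ η * Y / (2 * k * Real.log m) := by
      rw [le_div_iff₀ (by positivity)]
      linarith
    have h9 : η * Y / Real.log m / k = 2 * (η * Y / (2 * k * Real.log m)) := by
      field_simp
    linarith
  -- the terms
  have hsub : A ⊆ PC N p₀ k j := by
    intro p hp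
    rw [hA, mem_filter, mem_Ioc] at hp
    unfold PC
    rw [mem_filter, mem_Icc]
    exact ⟨by omega, hp.2.1, by omega, hp.2.2⟩
  have hWm : (W m : ℝ) ≤ D ^ 2 * Y := by
    have q1 : (W m : ℝ) ≤ W (2 * (n + 1)) := by exact_mod_cast hmono (by omega)
    have q2 : (W (n + 1) : ℝ) ≤ W (2 * n) := by exact_mod_cast hmono (by omega)
    calc (W m : ℝ) ≤ D * W (n + 1) := q1.trans b3
      _ ≤ D * (D * Y) := mul_le_mul_of_nonneg_left (q2.trans a3) (by linarith)
      _ = _ := by ring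
  have hterm : ∀ p ∈ A, δ / (D ^ 2 * Y) ≤ μ.real {ω | p + 2 * X p ω = m} := by
    intro p hp
    rw [hA, mem_filter, mem_Ioc] at hp
    obtain ⟨⟨c1, c2⟩, c3, -⟩ := hp
    have hpodd : p % 2 = 1 := by
      rcases c3.eq_two_or_odd with h | h
      · omega
      · exact h
    have c4 : p + 2 * ((m - p) / 2) = m := by omega
    have hWp : Y ≤ W p := hmono (by omega)
    have c5 : {ω | p + 2 * X p ω = m} = {ω | X p ω = (m - p) / 2} := by
      ext ω
      simp only [Set.mem_ofPred_eq]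
      omega
    rw [c5, hlaw p c3 (by omega) _ (by omega) (by omega)]
    apply div_le_div_of_nonneg_left hδ0.le
    · have : (0 : ℝ) < Y := hY0
      have : (Y : ℝ) ≤ W p := by exact_mod_cast hWp
      linarith
    · refine le_trans ?_ hWm
      exact_mod_cast hmono (by omega)
  calc η / 2 * δ / (k * D ^ 2) / Real.log m = (η * Y / (2 * k * Real.log m)) * (δ / (D ^ 2 * Y)) := by
        field_simp
    _ ≤ A.card * (δ / (D ^ 2 * Y)) := mul_le_mul_of_nonneg_right h5 (by positivity)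
    _ = ∑ _p ∈ A, δ / (D ^ 2 * Y) := by rw [sum_const, nsmul_eq_mul]
    _ ≤ ∑ p ∈ A, μ.real {ω | p + 2 * X p ω = m} := sum_le_sum hterm
    _ ≤ _ := sum_le_sum_of_subset_of_nonneg hsub fun p _ _ => measureReal_nonneg

end Pool.Agent.R526.UT
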