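import Pool.Agent.R526.RS.Prob
import Pool.Agent.R526.RS.Law

set_option autoImplicit false

/-! # Disjoint configurations are hit -/

namespace Pool.Agent.R526.UT

open MeasureTheory ProbabilityTheory Filter Finset Pool.Agent.R526.RS

open scoped Classical

variable {Ω : Type} [MeasurableSpace Ω] (μ : Measure Ω) [IsProbabilityMeasure μ] {ξ : ℕ → Ω → ℕ}

/-- disjoint groups -/
theorem groups (G : ℕ) : ∀ (N : ℕ) (I : Finset ℕ), N * G ≤ I.card →
    ∃ T : ℕ → Finset ℕ, (∀ a < N, T a ⊆ I ∧ (T a).card = G) ∧ ∀ a < N, ∀ b < N, a ≠ b → Disjoint (T a) (T b) := by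
  intro N
  induction N with
  | zero =>
    intro I _
    exact ⟨fun _ => ∅, fun a ha => absurd ha (Nat.not_lt_zero _), fun a ha => absurd ha (Nat.not_lt_zero _)⟩
  | succ N ih =>
    intro I hI
    obtain ⟨A, hA1, hA2⟩ := Finset.exists_subset_card_eq (s := I) (n := G) (by
      refine le_trans ?_ hI
      rw [Nat.succ_mul]
      omega)
    obtain ⟨T, h1, h2⟩ := ih (I \ A) (by
      rw [card_sdiff_of_subset hA1, hA2]
      rw [Nat.succ_mul] at hI
      omega)
    refine ⟨fun a => if a = N then A else T a, ?_, ?_⟩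
    · intro a ha
      by_cases h : a = N
      · simp only [h, if_true]
        exact ⟨hA1, hA2⟩
      · simp only [if_neg h]
        obtain ⟨h3, h4⟩ := h1 a (by omega)
        exact ⟨h3.trans sdiff_subset, h4⟩
    · intro a ha b hb hab
      by_cases h : a = N
      · by_cases h' : b = N
        · omega
        · simp only [if_pos h, if_neg h']
          rw [disjoint_right]
          intro x hx
          exact (mem_sdiff.1 ((h1 b (by omega)).1 hx)).2
      · by_cases h' : b = N
        · simp only [if_neg h, if_pos h']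
          rw [disjoint_left]
          intro x hx
          exact (mem_sdiff.1 ((h1 a (by omega)).1 hx)).2
        · simp only [if_neg h, if_neg h']
          exact h2 a (by omega) b (by omega) hab

/-- the probability that a set is avoided -/
theorem avoid_le (hξ : ∀ p, Measurable (ξ p)) (hind : iIndepFun ξ μ) (Q F : Finset ℕ) (q : ℝ)
    (hq : ∀ m ∈ F, q ≤ ∑ p ∈ Q, μ.real {ω | ξ p ω = m}) :
    μ.real (Av ξ Q F) ≤ Real.exp (-(F.card * q)) := by
  rw [Av_real μ hξ hind]
  calc ∏ p ∈ Q, (1 - μ.real {ω | ξ p ω ∈ F}) ≤ ∏ p ∈ Q, Real.exp (-(μ.real {ω | ξ p ω ∈ F})) := by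
        apply Finset.prod_le_prod
        · intro p _
          have : μ.real {ω | ξ p ω ∈ F} ≤ 1 := measureReal_le_one
          linarith
        · intro p _
          have := Real.add_one_le_exp (-(μ.real {ω | ξ p ω ∈ F}))
          linarith
    _ = Real.exp (-(∑ p ∈ Q, μ.real {ω | ξ p ω ∈ F})) := by
        rw [← Real.exp_sum, sum_neg_distrib]
    _ ≤ _ := by
        apply Real.exp_le_exp.2
        rw [neg_le_neg_iff]
        calc (F.card : ℝ) * q = ∑ _m ∈ F, q := by rw [sum_const, nsmul_eq_mul]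
          _ ≤ ∑ m ∈ F, ∑ p ∈ Q, μ.real {ω | ξ p ω = m} := sum_le_sum hq
          _ = ∑ p ∈ Q, ∑ m ∈ F, μ.real {ω | ξ p ω = m} := sum_comm
          _ = ∑ p ∈ Q, μ.real {ω | ξ p ω ∈ F} := sum_congr rfl fun p _ => (real_union μ (hξ p) F).symm

/-- the indices whose coordinate is hit -/
noncomputable def HS (ξ : ℕ → Ω → ℕ) (Q : Finset ℕ) (f : ℕ → ℕ) (I : Finset ℕ) (ω : Ω) : Finset ℕ :=
  I.filter (fun i => ∃ p ∈ Q, ξ p ω = f i)

theorem few_hit (hξ : ∀ p, Measurable (ξ p)) (hind : iIndepFun ξ μ) (Q : Finset ℕ) (f : ℕ → ℕ) (I : Finset ℕ)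
    (hf : Set.InjOn f I) (q : ℝ) (hq : ∀ i ∈ I, q ≤ ∑ p ∈ Q, μ.real {ω | ξ p ω = f i}) (N G : ℕ)
    (hI : N * G ≤ I.card) :
    μ.real {ω | (HS ξ Q f I ω).card < N} ≤ N * Real.exp (-(G * q)) := by
  obtain ⟨T, h1, h2⟩ := groups G N I hI
  have hsub : {ω | (HS ξ Q f I ω).card < N} ⊆ ⋃ a ∈ range N, Av ξ Q ((T a).image f) := by
    intro ω hω
    by_contra hc
    simp only [Set.mem_iUnion, not_exists] at hc
    have h3 : ∀ a ∈ range N, ∃ i ∈ T a, i ∈ HS ξ Q f I ω := by
      intro a ha
      have h4 := hc a ha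
      rw [mem_Av] at h4
      push Not at h4
      obtain ⟨p, hp, hpa⟩ := h4
      rw [mem_image] at hpa
      obtain ⟨i, hi, hie⟩ := hpa
      refine ⟨i, hi, ?_⟩
      unfold HS
      rw [mem_filter]
      exact ⟨(h1 a (mem_range.1 ha)).1 hi, p, hp, hie.symm⟩
    choose! g hg1 hg2 using h3
    have h5 : ((range N).image g).card = N := by
      rw [card_image_of_injOn, card_range]
      intro a ha b hb hab
      by_contra hne
      have h6 := h2 a (mem_range.1 ha) b (mem_range.1 hb) hne
      rw [disjoint_left] at h6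
      have h7 := hg1 b hb
      rw [← hab] at h7
      exact h6 (hg1 a ha) h7
    have h6 : (range N).image g ⊆ HS ξ Q f I ω := by
      intro i hi
      rw [mem_image] at hi
      obtain ⟨a, ha, rfl⟩ := hi
      exact hg2 a ha
    have h7 := card_le_card h6
    rw [h5] at h7
    have h8 : (HS ξ Q f I ω).card < N := hω
    omega
  calc μ.real {ω | (HS ξ Q f I ω).card < N} ≤ μ.real (⋃ a ∈ range N, Av ξ Q ((T a).image f)) :=
        measureReal_mono hsub (measure_ne_top _ _)
    _ ≤ ∑ a ∈ range N, μ.real (Av ξ Q ((T a).image f)) := measureReal_biUnion_finset_le _ _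
    _ ≤ ∑ _a ∈ range N, Real.exp (-(G * q)) := by
        apply sum_le_sum
        intro a ha
        obtain ⟨h3, h4⟩ := h1 a (mem_range.1 ha)
        have h5 : ((T a).image f).card = G := by
          rw [card_image_of_injOn (hf.mono (by exact_mod_cast h3)), h4]
        have h6 := avoid_le μ hξ hind Q ((T a).image f) q (by
          intro m hm
          rw [mem_image] at hm
          obtain ⟨i, hi, rfl⟩ := hm
          exact hq i (h3 hi))
        rwa [h5] at h6
    _ = _ := by rw [sum_const, card_range, nsmul_eq_mul]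

/-- no configuration of `I` is hit -/
def Fail (ξ : ℕ → Ω → ℕ) (P : ℕ → Finset ℕ) (c : ℕ → ℕ → ℕ) (k : ℕ) (I : Finset ℕ) : Set Ω :=
  {ω | ∀ i ∈ I, ∃ j < k, ∀ p ∈ P j, ξ p ω ≠ c i j}

theorem indep_stage (hξ : ∀ p, Measurable (ξ p)) (hind : iIndepFun ξ μ) (P : ℕ → Finset ℕ) (c : ℕ → ℕ → ℕ) (k : ℕ)
    (I J : Finset ℕ) (f : ℕ → ℕ) (hd : ∀ j < k, Disjoint (P k) (P j)) :
    μ.real ({ω | HS ξ (P k) f I ω = J} ∩ Fail ξ P c k J) =
      μ.real {ω | HS ξ (P k) f I ω = J} * μ.real (Fail ξ P c k J) := by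
  set U : Finset ℕ := (range k).biUnion P with hU
  have hdis : Disjoint (P k) U := by
    rw [hU, Finset.disjoint_biUnion_right]
    intro j hj
    exact hd j (mem_range.1 hj)
  have hI := hind.indepFun_finset (P k) U hdis hξ
  set A : Set (P k → ℕ) := {v | I.filter (fun i => ∃ p : P k, v p = f i) = J} with hA
  set B : Set (U → ℕ) := {v | ∀ i ∈ J, ∃ j < k, ∀ p : U, (p : ℕ) ∈ P j → v p ≠ c i j} with hB
  have h1 : {ω | HS ξ (P k) f I ω = J} = (fun ω (i : P k) => ξ i ω) ⁻¹' A := by
    ext ω
    rw [Set.mem_preimage, hA, Set.mem_ofPred_eq, Set.mem_ofPred_eq]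
    unfold HS
    have : (I.filter (fun i => ∃ p ∈ P k, ξ p ω = f i)) = (I.filter (fun i => ∃ p : P k, ξ p ω = f i)) := by
      apply filter_congr
      intro i _
      constructor
      · rintro ⟨p, hp, h⟩
        exact ⟨⟨p, hp⟩, h⟩
      · rintro ⟨p, h⟩
        exact ⟨p, p.2, h⟩
    rw [this]
  have h2 : Fail ξ P c k J = (fun ω (i : U) => ξ i ω) ⁻¹' B := by
    ext ω
    rw [Set.mem_preimage, hB, Set.mem_ofPred_eq]
    unfold Fail
    rw [Set.mem_ofPred_eq]
    constructor
    · intro h i hi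
      obtain ⟨j, hj, hp⟩ := h i hi
      exact ⟨j, hj, fun p hpj => hp p hpj⟩
    · intro h i hi
      obtain ⟨j, hj, hp⟩ := h i hi
      exact ⟨j, hj, fun p hpj => hp ⟨p, by rw [hU, mem_biUnion]; exact ⟨j, mem_range.2 hj, hpj⟩⟩ hpj⟩
  rw [h1, h2, Measure.real, Measure.real, Measure.real,
    hI.measure_inter_preimage_eq_mul A B (Set.to_countable _).measurableSet (Set.to_countable _).measurableSet,
    ENNReal.toReal_mul]

theorem HS_meas (hξ : ∀ p, Measurable (ξ p)) (Q : Finset ℕ) (f : ℕ → ℕ) (I J : Finset ℕ) :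
    MeasurableSet {ω | HS ξ Q f I ω = J} := by
  set A : Set (Q → ℕ) := {v | I.filter (fun i => ∃ p : Q, v p = f i) = J} with hA
  have h1 : {ω | HS ξ Q f I ω = J} = (fun ω (i : Q) => ξ i ω) ⁻¹' A := by
    ext ω
    rw [Set.mem_preimage, hA, Set.mem_ofPred_eq, Set.mem_ofPred_eq]
    unfold HS
    have : (I.filter (fun i => ∃ p ∈ Q, ξ p ω = f i)) = (I.filter (fun i => ∃ p : Q, ξ p ω = f i)) := by
      apply filter_congr
      intro i _
      constructor
      · rintro ⟨p, hp, h⟩
        exact ⟨⟨p, hp⟩, h⟩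
      · rintro ⟨p, h⟩
        exact ⟨p, p.2, h⟩
    rw [this]
  rw [h1]
  have h2 : Measurable (fun ω (i : Q) => ξ i ω) := measurable_pi_lambda _ fun i => hξ i
  exact h2 (Set.to_countable A).measurableSet

/-- all the configurations of a large family fail with a small probability -/
theorem fail_le (hξ : ∀ p, Measurable (ξ p)) (hind : iIndepFun ξ μ) (P : ℕ → Finset ℕ) (c : ℕ → ℕ → ℕ) (q : ℝ)
    (G : ℕ) (hG : 1 ≤ G) : ∀ (k : ℕ), (∀ j < k, ∀ j' < k, j ≠ j' → Disjoint (P j) (P j')) → ∀ (I : Finset ℕ),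
      (∀ j < k, Set.InjOn (fun i => c i j) I) →
      (∀ j < k, ∀ i ∈ I, q ≤ ∑ p ∈ P j, μ.real {ω | ξ p ω = c i j}) → G ^ k ≤ I.card →
      μ.real (Fail ξ P c k I) ≤ k * I.card * Real.exp (-(G * q)) := by
  intro k
  induction k with
  | zero =>
    intro _ I _ _ hI
    have hne : I.Nonempty := by
      rw [← card_pos]
      rw [pow_zero] at hI
      omega
    have : Fail ξ P c 0 I = ∅ := by
      unfold Fail
      rw [Set.eq_empty_iff_forall_notMem]
      intro ω hω
      obtain ⟨i, hi⟩ := hne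
      obtain ⟨j, hj, -⟩ := hω i hi
      exact absurd hj (Nat.not_lt_zero _)
    rw [this]
    simp
  | succ k ih =>
    intro hd I hinj hq hI
    have hGI : G ^ k * G ≤ I.card := by rwa [pow_succ] at hI
    have h1 := few_hit μ hξ hind (P k) (fun i => c i k) I (hinj k (by omega)) q (hq k (by omega)) (G ^ k) G hGI
    set E := Real.exp (-(G * q)) with hE
    have hE0 : 0 < E := Real.exp_pos _
    set J' : Finset (Finset ℕ) := I.powerset.filter (fun J => G ^ k ≤ J.card) with hJ'
    have hsub : Fail ξ P c (k + 1) I ⊆ {ω | (HS ξ (P k) (fun i => c i k) I ω).card < G ^ k} ∪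
        ⋃ J ∈ J', ({ω | HS ξ (P k) (fun i => c i k) I ω = J} ∩ Fail ξ P c k J) := by
      intro ω hω
      rw [Set.mem_union]
      by_cases h : (HS ξ (P k) (fun i => c i k) I ω).card < G ^ k
      · exact Or.inl h
      · right
        simp only [Set.mem_iUnion]
        refine ⟨HS ξ (P k) (fun i => c i k) I ω, ?_, rfl, ?_⟩
        · rw [hJ', mem_filter, mem_powerset]
          exact ⟨filter_subset _ _, not_lt.1 h⟩
        · intro i hi
          unfold HS at hi
          rw [mem_filter] at hi
          obtain ⟨hiI, p, hp, hpe⟩ := hi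
          obtain ⟨j, hj, hjp⟩ := hω i hiI
          refine ⟨j, ?_, hjp⟩
          rcases Nat.lt_succ_iff_lt_or_eq.1 hj with h2 | h2
          · exact h2
          · exfalso
            rw [h2] at hjp
            exact hjp p hp hpe
    have h2 : μ.real (⋃ J ∈ J', ({ω | HS ξ (P k) (fun i => c i k) I ω = J} ∩ Fail ξ P c k J)) ≤ k * I.card * E := by
      calc μ.real (⋃ J ∈ J', ({ω | HS ξ (P k) (fun i => c i k) I ω = J} ∩ Fail ξ P c k J))
          ≤ ∑ J ∈ J', μ.real ({ω | HS ξ (P k) (fun i => c i k) I ω = J} ∩ Fail ξ P c k J) :=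
            measureReal_biUnion_finset_le _ _
        _ = ∑ J ∈ J', μ.real {ω | HS ξ (P k) (fun i => c i k) I ω = J} * μ.real (Fail ξ P c k J) := by
            apply sum_congr rfl
            intro J _
            exact indep_stage μ hξ hind P c k I J _ (fun j hj => hd k (by omega) j (by omega) (by omega))
        _ ≤ ∑ J ∈ J', μ.real {ω | HS ξ (P k) (fun i => c i k) I ω = J} * (k * I.card * E) := by
            apply sum_le_sum
            intro J hJ
            rw [hJ', mem_filter, mem_powerset] at hJ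
            apply mul_le_mul_of_nonneg_left _ measureReal_nonneg
            refine (ih (fun j hj j' hj' => hd j (by omega) j' (by omega)) J
              (fun j hj => (hinj j (by omega)).mono (by exact_mod_cast hJ.1))
              (fun j hj i hi => hq j (by omega) i (hJ.1 hi)) hJ.2).trans ?_
            have : (J.card : ℝ) ≤ I.card := by exact_mod_cast card_le_card hJ.1
            gcongr
        _ = (∑ J ∈ J', μ.real {ω | HS ξ (P k) (fun i => c i k) I ω = J}) * (k * I.card * E) := by rw [sum_mul]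
        _ ≤ 1 * (k * I.card * E) := by
            apply mul_le_mul_of_nonneg_right _ (by positivity)
            rw [← measureReal_biUnion_finset]
            · exact measureReal_le_one
            · intro J _ J₂ _ hJJ
              rw [Function.onFun, Set.disjoint_left]
              intro ω h3 h4
              exact hJJ (h3.symm.trans h4)
            · intro J _
              exact HS_meas hξ _ _ _ _
        _ = _ := one_mul _
    calc μ.real (Fail ξ P c (k + 1) I) ≤ μ.real ({ω | (HS ξ (P k) (fun i => c i k) I ω).card < G ^ k} ∪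
        ⋃ J ∈ J', ({ω | HS ξ (P k) (fun i => c i k) I ω = J} ∩ Fail ξ P c k J)) :=
          measureReal_mono hsub (measure_ne_top _ _)
      _ ≤ ((G ^ k : ℕ) : ℝ) * E + k * I.card * E := (measureReal_union_le _ _).trans (add_le_add h1 h2)
      _ ≤ I.card * E + k * I.card * E := by
          apply add_le_add_left
          apply mul_le_mul_of_nonneg_right _ hE0.le
          have h3 : G ^ k ≤ I.card := le_trans (Nat.le_mul_of_pos_right _ hG) hGI
          exact_mod_cast h3
      _ = _ := by push_cast; ring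

end Pool.Agent.R526.UT
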