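import Pool.Agent.R526.UT.Univ

set_option autoImplicit false

/-! # Sums of two patterns -/

namespace Pool.Agent.R526.UT

open MeasureTheory ProbabilityTheory Filter Finset Topology

open scoped Classical

/-- element number `j` of `H` -/
noncomputable def el (H : Finset ℕ) (j : ℕ) : ℕ := if hj : j < H.card then (H.equivFin.symm ⟨j, hj⟩ : ℕ) else 0

theorem el_mem (H : Finset ℕ) (j : ℕ) (hj : j < H.card) : el H j ∈ H := by
  unfold el
  rw [dif_pos hj]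
  exact (H.equivFin.symm ⟨j, hj⟩).2

theorem el_surj (H : Finset ℕ) (h : ℕ) (hh : h ∈ H) : ∃ j < H.card, el H j = h := by
  refine ⟨H.equivFin ⟨h, hh⟩, (H.equivFin ⟨h, hh⟩).2, ?_⟩
  unfold el
  rw [dif_pos (H.equivFin ⟨h, hh⟩).2]
  simp

/-- the first summand -/
noncomputable def aa (N i : ℕ) : ℕ := 2 * (⌈Real.log N⌉₊ + i) + 1

/-- the configurations -/
noncomputable def cc (H₁ H₂ : Finset ℕ) (N i j : ℕ) : ℕ :=
  if j < H₁.card then aa N i + el H₁ j else (N + N % 2) - aa N i + el H₂ (j - H₁.card)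

theorem ev_aa (k : ℕ) : ∀ᶠ N : ℕ in atTop, ∀ i < ⌈(Real.log N) ^ (2 * k + 1)⌉₊,
    (aa N i : ℝ) ≤ (Real.log N) ^ (2 * k + 2) ∧ 2 * aa N i ≤ N := by
  have hlog : Tendsto (fun n : ℕ => Real.log (n : ℝ)) atTop atTop :=
    Real.tendsto_log_atTop.comp tendsto_natCast_atTop_atTop
  have h1 := (Real.isLittleO_pow_log_id_atTop (n := 2 * k + 2)).def (show (0 : ℝ) < 1 / 2 by norm_num)
  filter_upwards [hlog.eventually_ge_atTop 9, tendsto_natCast_atTop_atTop.eventually h1,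
    eventually_ge_atTop 1] with N h2 h3 h4 i hi
  set L := Real.log N with hL
  have hN : (0 : ℝ) < N := by exact_mod_cast h4
  rw [Real.norm_of_nonneg (by positivity), id, Real.norm_of_nonneg hN.le] at h3
  have hL1 : (1 : ℝ) ≤ L ^ (2 * k + 1) := one_le_pow₀ (by linarith)
  have hLL : L ≤ L ^ (2 * k + 1) := by
    calc L = L ^ 1 := (pow_one L).symm
      _ ≤ L ^ (2 * k + 1) := pow_le_pow_right₀ (by linarith) (by omega)
  have h5 : ((⌈L⌉₊ : ℕ) : ℝ) ≤ L + 1 := (Nat.ceil_lt_add_one (by linarith)).le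
  have h6 : (i : ℝ) ≤ L ^ (2 * k + 1) := by
    have h7 : ((⌈L ^ (2 * k + 1)⌉₊ : ℕ) : ℝ) < L ^ (2 * k + 1) + 1 := Nat.ceil_lt_add_one (by positivity)
    have h8 : (i : ℝ) + 1 ≤ ((⌈L ^ (2 * k + 1)⌉₊ : ℕ) : ℝ) := by exact_mod_cast hi
    linarith
  have h9 : (aa N i : ℝ) ≤ L ^ (2 * k + 2) := by
    unfold aa
    push_cast
    calc 2 * ((⌈L⌉₊ : ℝ) + i) + 1 ≤ 2 * ((L + 1) + L ^ (2 * k + 1)) + 1 := by linarith
      _ ≤ 9 * L ^ (2 * k + 1) := by linarith
      _ ≤ L * L ^ (2 * k + 1) := mul_le_mul_of_nonneg_right h2 (by positivity)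
      _ = L ^ (2 * k + 2) := by ring
  refine ⟨h9, ?_⟩
  have h10 : (2 : ℝ) * aa N i ≤ N := by linarith
  exact_mod_cast h10

theorem sums : ∃ κ : ℝ, 0 < κ ∧ κ < 1 ∧ ∀ (D δ : ℝ), 1 ≤ D → 0 < δ → δ ≤ 1 → ∀ W : ℕ → ℕ, Grow κ D W →
    ∀ (Ω : Type) [MeasurableSpace Ω] (μ : Measure Ω) [IsProbabilityMeasure μ] (X : ℕ → Ω → ℕ),
      (∀ p, Measurable (X p)) → iIndepFun X μ → ∀ p₀ : ℕ, Mv δ W p₀ μ X →
      ∀ᵐ ω ∂μ, ∀ H₁ H₂ : Finset ℕ, (∀ h ∈ H₁, Even h) → (∀ h ∈ H₂, Even h) → H₁.Nonempty →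
        ∀ᶠ N : ℕ in atTop, Even N → ∃ a b : ℕ, a + b = N ∧
          (a : ℝ) ≤ (Real.log N) ^ (2 * (H₁.card + H₂.card) + 2) ∧
          (∀ h ∈ H₁, ∃ p : ℕ, p.Prime ∧ p + 2 * X p ω = a + h) ∧
          (∀ h ∈ H₂, ∃ p : ℕ, p.Prime ∧ p + 2 * X p ω = b + h) := by
  obtain ⟨κ, hκ0, hκ1, hU⟩ := univ
  refine ⟨κ, hκ0, hκ1, ?_⟩
  intro D δ hD hδ0 hδ1 W hW Ω _ μ _ X hX hind p₀ hlaw
  rw [ae_all_iff]
  intro H₁
  rw [ae_all_iff]
  intro H₂
  by_cases hH : (∀ h ∈ H₁, Even h) ∧ (∀ h ∈ H₂, Even h) ∧ H₁.Nonempty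
  swap
  · filter_upwards with ω h1 h2 h3
    exact absurd ⟨h1, h2, h3⟩ hH
  obtain ⟨he1, he2, hne⟩ := hH
  set k := H₁.card + H₂.card with hk
  have hk1 : 1 ≤ k := by
    have := card_pos.2 hne
    omega
  set B : ℕ := ∑ h ∈ H₁ ∪ H₂, h with hB
  have hB1 : ∀ h ∈ H₁, h ≤ B := fun h hh =>
    single_le_sum (f := fun h => h) (fun i _ => Nat.zero_le _) (mem_union_left _ hh)
  have hB2 : ∀ h ∈ H₂, h ≤ B := fun h hh =>
    single_le_sum (f := fun h => h) (fun i _ => Nat.zero_le _) (mem_union_right _ hh)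
  have hU2 := hU D δ hD hδ0 hδ1 W hW Ω μ X hX hind p₀ hlaw k 2
    (fun N => range ⌈(Real.log N) ^ (2 * k + 1)⌉₊) (cc H₁ H₂) hk1 (by norm_num) (by
      filter_upwards [ev_aa k, eventually_ge_atTop (B + 4)] with N h1 h2 i hi j hj
      obtain ⟨h3, h4⟩ := h1 i (mem_range.1 hi)
      unfold cc
      have hodd : Odd (aa N i) := ⟨⌈Real.log N⌉₊ + i, rfl⟩
      have key : ∀ x : ℕ, x ≤ N + 1 + B → (x : ℝ) ≤ (N : ℝ) ^ (2 : ℝ) := by
        intro x hx
        have h5 : x ≤ N ^ 2 := by nlinarith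
        have h6 : (N : ℝ) ^ (2 : ℝ) = ((N ^ 2 : ℕ) : ℝ) := by
          push_cast
          rw [← Real.rpow_natCast]
          norm_num
        rw [h6]
        exact_mod_cast h5
      by_cases hj1 : j < H₁.card
      · rw [if_pos hj1]
        have h5 := el_mem H₁ j hj1
        exact ⟨hodd.add_even (he1 _ h5), key _ (by have := hB1 _ h5; omega)⟩
      · rw [if_neg hj1]
        have h5 := el_mem H₂ (j - H₁.card) (by omega)
        refine ⟨?_, key _ (by have := hB2 _ h5; omega)⟩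
        apply Odd.add_even _ (he2 _ h5)
        obtain ⟨r, hr⟩ := hodd
        rcases Nat.even_or_odd N with h | h
        · obtain ⟨s, hs⟩ := h
          refine ⟨s - r - 1, ?_⟩
          omega
        · obtain ⟨s, hs⟩ := h
          refine ⟨s - r, ?_⟩
          omega) (by
      intro M
      have hlog : Tendsto (fun n : ℕ => Real.log (n : ℝ)) atTop atTop :=
        Real.tendsto_log_atTop.comp tendsto_natCast_atTop_atTop
      filter_upwards [ev_aa k, hlog.eventually_ge_atTop (M : ℝ), eventually_ge_atTop (2 * M)] with N h1 h2 h3 i hi j hj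
      obtain ⟨-, h4⟩ := h1 i (mem_range.1 hi)
      unfold cc
      split_ifs
      · have h5 : M ≤ ⌈Real.log N⌉₊ := by
          have : (M : ℝ) ≤ ⌈Real.log N⌉₊ := h2.trans (Nat.le_ceil _)
          exact_mod_cast this
        unfold aa
        omega
      · omega) (by
      filter_upwards [ev_aa k] with N h1 j hj
      intro i hi i' hi' hii
      rw [mem_coe] at hi hi'
      obtain ⟨-, h2⟩ := h1 i (mem_range.1 hi)
      obtain ⟨-, h3⟩ := h1 i' (mem_range.1 hi')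
      simp only [cc] at hii
      have h4 : aa N i = aa N i' := by
        split_ifs at hii <;> omega
      unfold aa at h4
      omega) (by
      filter_upwards with N
      rw [card_range]
      exact Nat.le_ceil _)
  filter_upwards [hU2] with ω hω _ _ _
  filter_upwards [hω, ev_aa k] with N hN h1 heven
  obtain ⟨i, hi, hij⟩ := hN
  obtain ⟨h2, h3⟩ := h1 i (mem_range.1 hi)
  refine ⟨aa N i, N - aa N i, by omega, h2, ?_, ?_⟩
  · intro h hh
    obtain ⟨j, hj, hje⟩ := el_surj H₁ h hh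
    obtain ⟨p, hp, hpe⟩ := hij j (by omega)
    refine ⟨p, hp, ?_⟩
    rw [hpe]
    unfold cc
    rw [if_pos hj, hje]
  · intro h hh
    obtain ⟨j, hj, hje⟩ := el_surj H₂ h hh
    obtain ⟨p, hp, hpe⟩ := hij (H₁.card + j) (by omega)
    refine ⟨p, hp, ?_⟩
    rw [hpe]
    unfold cc
    rw [if_neg (by omega), Nat.add_sub_cancel_left, hje, Nat.even_iff.1 heven, add_zero]

end Pool.Agent.R526.UT
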