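import Pool.Agent.R526.UT.Stage
import Pool.Agent.R526.UT.Dens

set_option autoImplicit false

/-! # The universal theorem for the moved primes -/

namespace Pool.Agent.R526.UT

open MeasureTheory ProbabilityTheory Filter Finset Topology

open scoped Classical

/-- the law of the moves -/
def Mv (δ : ℝ) (W : ℕ → ℕ) (p₀ : ℕ) {Ω : Type} [MeasurableSpace Ω] (μ : Measure Ω) (X : ℕ → Ω → ℕ) : Prop :=
  ∀ p : ℕ, p.Prime → p₀ ≤ p → ∀ i : ℕ, 1 ≤ i → i ≤ W p → μ.real {ω | X p ω = i} = δ / W p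

theorem ev_log (k : ℕ) (A : ℝ) (hA : 0 ≤ A) : ∀ᶠ N : ℕ in atTop,
    (A * (Real.log N) ^ 2 + 1) ^ k ≤ (Real.log N) ^ (2 * k + 1) ∧
      (k : ℝ) * (Real.log N) ^ (2 * k + 1) * (1 / (N : ℝ) ^ 3) ≤ 1 / (N : ℝ) ^ 2 ∧ 1 ≤ Real.log N := by
  have hlog : Tendsto (fun n : ℕ => Real.log (n : ℝ)) atTop atTop :=
    Real.tendsto_log_atTop.comp tendsto_natCast_atTop_atTop
  have h1 := (Real.isLittleO_pow_log_id_atTop (n := 2 * k + 1)).def (show (0 : ℝ) < 1 / (k + 1) by positivity)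
  filter_upwards [hlog.eventually_ge_atTop (max 1 ((A + 1) ^ k)), tendsto_natCast_atTop_atTop.eventually h1,
    eventually_ge_atTop 1] with N h2 h3 h4
  set L := Real.log N with hL
  have hL1 : 1 ≤ L := (le_max_left _ _).trans h2
  have hL2 : (A + 1) ^ k ≤ L := (le_max_right _ _).trans h2
  have hN : (0 : ℝ) < N := by exact_mod_cast h4
  refine ⟨?_, ?_, hL1⟩
  · have h5 : A * L ^ 2 + 1 ≤ (A + 1) * L ^ 2 := by
      have : 1 ≤ L ^ 2 := one_le_pow₀ hL1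
      linarith
    calc (A * L ^ 2 + 1) ^ k ≤ ((A + 1) * L ^ 2) ^ k := pow_le_pow_left₀ (by positivity) h5 k
      _ = (A + 1) ^ k * L ^ (2 * k) := by rw [mul_pow, ← pow_mul]
      _ ≤ L * L ^ (2 * k) := mul_le_mul_of_nonneg_right hL2 (by positivity)
      _ = L ^ (2 * k + 1) := by ring
  · rw [Real.norm_of_nonneg (by positivity), id, Real.norm_of_nonneg hN.le] at h3
    have h6 : (k : ℝ) * L ^ (2 * k + 1) ≤ N := by
      calc (k : ℝ) * L ^ (2 * k + 1) ≤ k * (1 / (k + 1) * N) := mul_le_mul_of_nonneg_left h3 (by positivity)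
        _ = k / (k + 1) * N := by ring
        _ ≤ 1 * N := by
            apply mul_le_mul_of_nonneg_right _ hN.le
            rw [div_le_one (by positivity)]
            linarith
        _ = N := one_mul _
    calc (k : ℝ) * L ^ (2 * k + 1) * (1 / (N : ℝ) ^ 3) ≤ N * (1 / (N : ℝ) ^ 3) :=
          mul_le_mul_of_nonneg_right h6 (by positivity)
      _ = 1 / (N : ℝ) ^ 2 := by field_simp

theorem univ : ∃ κ : ℝ, 0 < κ ∧ κ < 1 ∧ ∀ (D δ : ℝ), 1 ≤ D → 0 < δ → δ ≤ 1 → ∀ W : ℕ → ℕ, Grow κ D W →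
    ∀ (Ω : Type) [MeasurableSpace Ω] (μ : Measure Ω) [IsProbabilityMeasure μ] (X : ℕ → Ω → ℕ),
      (∀ p, Measurable (X p)) → iIndepFun X μ → ∀ p₀ : ℕ, Mv δ W p₀ μ X →
      ∀ (k : ℕ) (C : ℝ) (I : ℕ → Finset ℕ) (c : ℕ → ℕ → ℕ → ℕ), 1 ≤ k → 0 < C →
        (∀ᶠ N : ℕ in atTop, ∀ i ∈ I N, ∀ j < k, Odd (c N i j) ∧ (c N i j : ℝ) ≤ (N : ℝ) ^ C) →
        (∀ M : ℕ, ∀ᶠ N : ℕ in atTop, ∀ i ∈ I N, ∀ j < k, M ≤ c N i j) →
        (∀ᶠ N : ℕ in atTop, ∀ j < k, Set.InjOn (fun i => c N i j) (I N)) →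
        (∀ᶠ N : ℕ in atTop, (Real.log N) ^ (2 * k + 1) ≤ ((I N).card : ℝ)) →
        ∀ᵐ ω ∂μ, ∀ᶠ N : ℕ in atTop, ∃ i ∈ I N, ∀ j < k, ∃ p : ℕ, p.Prime ∧ p + 2 * X p ω = c N i j := by
  obtain ⟨κ, η, hκ0, hκ1, hη, hdens⟩ := dens
  refine ⟨κ, hκ0, hκ1, ?_⟩
  intro D δ hD hδ0 hδ1 W hW Ω _ μ _ X hX hind p₀ hlaw k C I c hk hC h1 h2 h3 h4
  obtain ⟨m₀, hm₀, hd⟩ := hdens D δ hD hδ0 hδ1 W hW k hk p₀
  have hk0 : (0 : ℝ) < k := by exact_mod_cast hk
  set c₀ : ℝ := η * δ / (k * D ^ 2) with hc₀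
  have hc0 : 0 < c₀ := by positivity
  set A : ℝ := 3 * C / c₀ with hA
  have hA0 : 0 < A := by positivity
  set ξ : ℕ → Ω → ℕ := fun p ω => p + 2 * X p ω with hξd
  have hξ : ∀ p, Measurable (ξ p) := fun p => (measurable_of_countable (fun i : ℕ => p + 2 * i)).comp (hX p)
  have hξi : iIndepFun ξ μ := hind.comp (fun p (i : ℕ) => p + 2 * i) (fun p => measurable_of_countable _)
  set M : ℕ → ℕ := fun N => ⌈(N : ℝ) ^ C⌉₊ with hM
  set s : ℕ → Set Ω := fun N => Fail ξ (PC (M N) p₀ k) (c N) k (I N) with hs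
  have hbound : ∀ᶠ N : ℕ in atTop, μ.real (s N) ≤ 1 / (N : ℝ) ^ 2 := by
    filter_upwards [h1, h2 m₀, h3, h4, ev_log k A hA0.le, eventually_ge_atTop 2] with N a1 a2 a3 a4 a5 a6
    obtain ⟨b1, b2, b3⟩ := a5
    set L := Real.log N with hL
    have hN0 : (0 : ℝ) < N := by exact_mod_cast (by omega : 0 < N)
    have hL0 : 0 < L := by linarith
    set G : ℕ := ⌈A * L ^ 2⌉₊ with hG
    have hG1 : 1 ≤ G := Nat.one_le_iff_ne_zero.2 (Nat.ceil_pos.2 (by positivity)).ne'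
    have hGr : A * L ^ 2 ≤ G := Nat.le_ceil _
    have hGr2 : (G : ℝ) ≤ A * L ^ 2 + 1 := (Nat.ceil_lt_add_one (by positivity)).le
    have hGk : ((G ^ k : ℕ) : ℝ) ≤ L ^ (2 * k + 1) := by
      push_cast
      exact (pow_le_pow_left₀ (Nat.cast_nonneg _) hGr2 k).trans b1
    have hGI : G ^ k ≤ (I N).card := by exact_mod_cast hGk.trans a4
    obtain ⟨I', hI', hI'c⟩ := Finset.exists_subset_card_eq hGI
    have hmono : s N ⊆ Fail ξ (PC (M N) p₀ k) (c N) k I' := by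
      intro ω hω i hi
      exact hω i (hI' hi)
    have hF := fail_le μ hξ hξi (PC (M N) p₀ k) (c N) (c₀ / (C * L)) G hG1 k
      (fun j _ j' _ hjj => PC_disj _ _ _ _ _ hjj) I' (fun j hj => (a3 j hj).mono (by exact_mod_cast hI'))
      (by
        intro j hj i hi
        obtain ⟨d1, d2⟩ := a1 i (hI' hi) j hj
        have d3 := a2 i (hI' hi) j hj
        have d4 := hd (c N i j) d3 d1 (M N) (by
          have : (c N i j : ℝ) ≤ M N := d2.trans (Nat.le_ceil _)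
          exact_mod_cast this) j hj Ω μ X hlaw
        refine le_trans ?_ d4
        have d5 : (1 : ℝ) < c N i j := by exact_mod_cast (by omega : 1 < c N i j)
        apply div_le_div_of_nonneg_left hc0.le (Real.log_pos d5)
        have := Real.log_le_log (by linarith) d2
        rwa [Real.log_rpow hN0] at this)
      (by rw [hI'c])
    have hexp : Real.exp (-(G * (c₀ / (C * L)))) ≤ 1 / (N : ℝ) ^ 3 := by
      have e1 : 3 * L ≤ G * (c₀ / (C * L)) := by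
        calc 3 * L = A * L ^ 2 * (c₀ / (C * L)) := by rw [hA]; field_simp
          _ ≤ _ := mul_le_mul_of_nonneg_right hGr (by positivity)
      have e2 : (N : ℝ) ^ 3 = Real.exp (3 * L) := by
        rw [hL, mul_comm, Real.exp_mul, Real.exp_log hN0]
        norm_num
      rw [e2, one_div, ← Real.exp_neg]
      exact Real.exp_le_exp.2 (by linarith)
    calc μ.real (s N) ≤ μ.real (Fail ξ (PC (M N) p₀ k) (c N) k I') := measureReal_mono hmono (measure_ne_top _ _)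
      _ ≤ k * I'.card * Real.exp (-(G * (c₀ / (C * L)))) := hF
      _ ≤ k * L ^ (2 * k + 1) * (1 / (N : ℝ) ^ 3) := by
          rw [hI'c]
          apply mul_le_mul _ hexp (Real.exp_pos _).le (by positivity)
          exact mul_le_mul_of_nonneg_left hGk hk0.le
      _ ≤ 1 / (N : ℝ) ^ 2 := b2
  have hbc := Pool.Agent.R526.RS.bc_sum μ s (fun N : ℕ => 1 / (N : ℝ) ^ 2) (fun n => by positivity)
    (Real.summable_one_div_nat_pow.2 (by norm_num)) hbound
  filter_upwards [hbc] with ω hω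
  filter_upwards [hω] with N hN
  simp only [hs, Fail, Set.mem_ofPred_eq] at hN
  push Not at hN
  obtain ⟨i, hi, hij⟩ := hN
  refine ⟨i, hi, fun j hj => ?_⟩
  obtain ⟨p, hp, hpe⟩ := hij j hj
  unfold PC at hp
  rw [mem_filter] at hp
  exact ⟨p, hp.2.1, hpe⟩

end Pool.Agent.R526.UT
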